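import Pool.Agent.UL3.Stmts

/-!
Squad UL3 (MP_c7c9bf_co), row TZR (helper82): the critical height.
-/

set_option autoImplicit false

namespace Pool.Agent.UL3.H82

open MeasureTheory Set Pool.Agent.UL3

/-- the cone below the profile -/
lemma al_lower (hC : CcvStmt) {K : Set E3} (hK : SB K) (hh : 0 < hgt K) {t : ℝ}
    (ht0 : 0 ≤ t) (ht : t ≤ hgt K) : (1 - t / hgt K) ^ 2 * al K 0 ≤ al K t := by
  have hcc := hC K hK
  have hA : 0 ≤ al K 0 := measureReal_nonneg
  have hAt : 0 ≤ al K t := measureReal_nonneg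
  have hs0 : 0 ≤ t / hgt K := by positivity
  have hs1 : t / hgt K ≤ 1 := by
    rw [div_le_one hh]
    exact ht
  have m0 : (0 : ℝ) ∈ Icc (-hgt K) (hgt K) := ⟨by linarith, hh.le⟩
  have m1 : hgt K ∈ Icc (-hgt K) (hgt K) := ⟨by linarith, le_refl _⟩
  have h1 := hcc.2 m0 m1 (sub_nonneg.mpr hs1) hs0 (sub_add_cancel 1 (t / hgt K))
  have h2 : (1 - t / hgt K) • (0 : ℝ) + (t / hgt K) • hgt K = t := by
    simp only [smul_eq_mul, mul_zero, zero_add]
    field_simp
  rw [h2] at h1
  simp only [smul_eq_mul] at h1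
  have h3 : (1 - t / hgt K) * Real.sqrt (al K 0) ≤ Real.sqrt (al K t) := by
    have : 0 ≤ t / hgt K * Real.sqrt (al K (hgt K)) := mul_nonneg hs0 (Real.sqrt_nonneg _)
    linarith
  have h4 := mul_self_le_mul_self (mul_nonneg (by linarith) (Real.sqrt_nonneg _)) h3
  rw [Real.mul_self_sqrt hAt] at h4
  calc (1 - t / hgt K) ^ 2 * al K 0
      = (1 - t / hgt K) ^ 2 * (Real.sqrt (al K 0) * Real.sqrt (al K 0)) := by
        rw [Real.mul_self_sqrt hA]
    _ = (1 - t / hgt K) * Real.sqrt (al K 0) * ((1 - t / hgt K) * Real.sqrt (al K 0)) := by ring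
    _ ≤ al K t := h4

/-- the volume of the cone -/
lemma vol_lower (hH : HgtStmt) (hSec : SecStmt) (hC : CcvStmt) (hF : FubStmt) {K : Set E3}
    (hK : SB K) : 2 / 3 * hgt K * al K 0 ≤ V K := by
  have hh := (hH K hK).1
  obtain ⟨-, hsec, -, -, -⟩ := hSec K hK
  obtain ⟨hint, hg, -⟩ := hF K hK.cpt
  have hV : V K = ∫ t, al K t := by
    have h1 := (hg (fun _ => 1) continuous_const).2
    simp only [one_mul] at h1
    rw [← h1]
    simp [V]
  have hA : 0 ≤ al K 0 := measureReal_nonneg
  have hint0 : IntervalIntegrable (al K) volume 0 (hgt K) := hint.intervalIntegrable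
  have hint1 : IntervalIntegrable (al K) volume (-hgt K) 0 := hint.intervalIntegrable
  have hone : hgt K / 3 * al K 0 ≤ ∫ t in (0 : ℝ)..hgt K, al K t := by
    have h1 : ∫ t in (0 : ℝ)..hgt K, (1 - t / hgt K) ^ 2 * al K 0 = hgt K / 3 * al K 0 := by
      rw [intervalIntegral.integral_mul_const]
      congr 1
      have := intervalIntegral.integral_comp_sub_div (fun x : ℝ => x ^ 2) (a := 0) (b := hgt K)
        hh.ne' 1
      simp only [smul_eq_mul] at this
      rw [this, div_self hh.ne', integral_pow]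
      norm_num
      ring
    rw [← h1]
    refine intervalIntegral.integral_mono_on hh.le ?_ hint0 ?_
    · apply Continuous.intervalIntegrable
      fun_prop
    · intro t ht
      exact al_lower hC hK hh ht.1 ht.2
  have hneg : ∫ t in (-hgt K)..(0 : ℝ), al K t = ∫ t in (0 : ℝ)..hgt K, al K t := by
    have h1 := intervalIntegral.integral_comp_neg (fun t => al K t) (a := 0) (b := hgt K)
    rw [neg_zero] at h1
    rw [← h1]
    refine intervalIntegral.integral_congr fun t _ => ?_
    exact (hsec t).2.2.2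
  have hsum : ∫ t in (-hgt K)..hgt K, al K t = 2 * ∫ t in (0 : ℝ)..hgt K, al K t := by
    rw [← intervalIntegral.integral_add_adjacent_intervals hint1 hint0, hneg]
    ring
  have hle : ∫ t in (-hgt K)..hgt K, al K t ≤ ∫ t, al K t := by
    rw [intervalIntegral.integral_of_le (by linarith)]
    exact setIntegral_le_integral hint (Filter.Eventually.of_forall fun t => measureReal_nonneg)
  rw [hV]
  linarith

/-- TZR -/
theorem tzr (hP : PlnStmt) (hS : StkStmt) (hH : HgtStmt) (hSec : SecStmt) (hC : CcvStmt)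
    (hF : FubStmt) : TzrStmt := by
  intro K hK hG
  have hh := (hH K hK).1
  have hvol := vol_lower hH hSec hC hF hK
  obtain ⟨hPB, hsec, -, hA, hemp⟩ := hSec K hK
  have hVpos : 0 < V K := lt_of_lt_of_le (by positivity) hvol
  set t₀ := 3 * V K / (4 * al K 0) with ht₀
  have ht₀pos : 0 < t₀ := by positivity
  have h3 : (0 : ℝ) < Real.sqrt 3 := Real.sqrt_pos.mpr (by norm_num)
  have hh2 : hgt K ≤ 2 * t₀ := by
    rw [ht₀]
    rw [← mul_div_assoc, le_div_iff₀ (by positivity)]
    nlinarith
  have hDpos : 0 < al K 0 / (2 * Real.sqrt 3) := by positivity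
  have hlow : al K 0 / (2 * Real.sqrt 3) ≤ al K t₀ := by
    by_contra hcon
    push Not at hcon
    obtain ⟨a, b, hadm, hcr, hle⟩ := hP (sec K 0) hPB
    have hle' : 2 * Real.sqrt 3 * cr a b ≤ al K 0 := hle
    set c := Real.sqrt (al K 0 / (2 * Real.sqrt 3) / cr a b) with hc
    have hr1 : 1 ≤ al K 0 / (2 * Real.sqrt 3) / cr a b := by
      rw [div_div, le_div_iff₀ (by positivity)]
      linarith
    have hc1 : 1 ≤ c := by
      rw [hc]
      exact Real.one_le_sqrt.mpr hr1
    have hcsq : c * c = al K 0 / (2 * Real.sqrt 3) / cr a b :=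
      Real.mul_self_sqrt (by linarith)
    have hcr' : cr (c • a) (c • b) = al K 0 / (2 * Real.sqrt 3) := by
      have : cr (c • a) (c • b) = c * c * cr a b := by
        simp only [cr, Prod.smul_fst, Prod.smul_snd, smul_eq_mul]
        ring
      rw [this, hcsq]
      field_simp
    have hadm' : Adm2 (sec K 0) (c • a) (c • b) := by
      intro m n hmn hmem
      apply hadm m n hmn
      have h0 : (0 : ℝ × ℝ) ∈ interior (sec K 0) := hPB.zero_mem
      have hcv : Convex ℝ (interior (sec K 0)) := hPB.cvx.interior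
      have hcpos : 0 < c := by linarith
      have h1 := hcv hmem h0 (a := 1 / c) (b := 1 - 1 / c) (by positivity)
        (by
          have : 1 / c ≤ 1 := by
            rw [div_le_one hcpos]
            exact hc1
          linarith) (by ring)
      have h2 : (1 / c : ℝ) • ((m : ℝ) • c • a + (n : ℝ) • c • b) + (1 - 1 / c) • (0 : ℝ × ℝ)
          = (m : ℝ) • a + (n : ℝ) • b := by
        refine Prod.ext ?_ ?_
        · simp only [Prod.fst_add, Prod.smul_fst, smul_eq_mul, Prod.fst_zero, mul_zero, add_zero]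
          field_simp
        · simp only [Prod.snd_add, Prod.smul_snd, smul_eq_mul, Prod.snd_zero, mul_zero, add_zero]
          field_simp
      rwa [h2] at h1
    obtain ⟨v, hv1, hv2⟩ := hS K hK (c • a) (c • b) t₀ hadm' (by rw [hcr']; exact hDpos) ht₀pos hh2
      (by rw [hcr']; exact hcon)
    apply hG
    refine ⟨v, ?_, hv1, ?_⟩
    · rw [hv2, hcr']
      positivity
    · rw [hv2, hcr', ht₀]
      apply le_of_eq
      have h33 : Real.sqrt 3 * Real.sqrt 3 = 3 := Real.mul_self_sqrt (by norm_num)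
      field_simp
      nlinarith
  refine ⟨?_, hlow⟩
  by_contra hcon
  push Not at hcon
  have h0 : sec K t₀ = ∅ := hemp t₀ (by rw [abs_of_pos ht₀pos]; exact hcon)
  have h1 : al K t₀ = 0 := by
    unfold al
    rw [h0]
    simp
  rw [h1] at hlow
  linarith

end Pool.Agent.UL3.H82
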